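import Pool.Agent.Q276.BA.D4

/-! Project BB (helper78), job D3: the change of variables -/

set_option autoImplicit false

open MeasureTheory Set Filter Topology
open scoped BigOperators ENNReal SchwartzMap ContDiff

namespace Pool.Agent.Q151.BB

variable {W g k0 : ℝ → ℂ} {C : ℝ}

lemma int1 (hW : Continuous W) (hC : ∀ x, ‖W x‖ ≤ C) (hg : Continuous g) (hgc : HasCompactSupport g)
    (hk : Continuous k0) :
    Integrable (fun q : ℝ × ℝ => W q.1 * ((q.2 : ℂ) * k0 q.2 * g (q.2 * q.1)))
      ((volume.restrict (Ioi (0 : ℝ))).prod (volume.restrict (Ioc (0 : ℝ) 1))) := by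
  have hC0 : 0 ≤ C := (norm_nonneg _).trans (hC 0)
  rw [integrable_prod_iff' (Continuous.aestronglyMeasurable (by fun_prop))]
  constructor
  · rw [ae_restrict_iff' measurableSet_Ioc]
    refine Eventually.of_forall fun v hv => ?_
    have hs : HasCompactSupport (fun x : ℝ => g (v * x)) :=
      hgc.comp_homeomorph (Homeomorph.mulLeft₀ v hv.1.ne')
    have h1 : Continuous fun x : ℝ => W x * ((v : ℂ) * k0 v * g (v * x)) := by fun_prop
    have hs2 : HasCompactSupport (fun x : ℝ => W x * ((v : ℂ) * k0 v * g (v * x))) :=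
      (hs.mul_left).mul_left
    exact (h1.integrable_of_hasCompactSupport hs2).integrableOn
  · refine Integrable.mono' (g := fun v : ℝ => C * ‖k0 v‖ * ∫ x in Ioi (0 : ℝ), ‖g x‖) ?_ ?_ ?_
    · exact (by fun_prop : Continuous fun v : ℝ => C * ‖k0 v‖ * ∫ x in Ioi (0 : ℝ), ‖g x‖).integrableOn_Ioc
    · exact (Continuous.aestronglyMeasurable
        (by fun_prop : Continuous fun q : ℝ × ℝ =>
          ‖W q.2 * ((q.1 : ℂ) * k0 q.1 * g (q.1 * q.2))‖)).integral_prod_right'
    · rw [ae_restrict_iff' measurableSet_Ioc]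
      refine Eventually.of_forall fun v hv => ?_
      have hs : HasCompactSupport (fun x : ℝ => g (v * x)) :=
        hgc.comp_homeomorph (Homeomorph.mulLeft₀ v hv.1.ne')
      have h2 : ∫ x in Ioi (0 : ℝ), ‖g (v * x)‖ = v⁻¹ * ∫ x in Ioi (0 : ℝ), ‖g x‖ := by
        have := integral_comp_mul_left_Ioi (fun y => ‖g y‖) 0 hv.1
        rw [mul_zero, smul_eq_mul] at this
        exact this
      rw [Real.norm_of_nonneg (integral_nonneg fun x => norm_nonneg _)]
      calc ∫ x in Ioi (0 : ℝ), ‖W x * ((v : ℂ) * k0 v * g (v * x))‖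
          ≤ ∫ x in Ioi (0 : ℝ), C * (v * ‖k0 v‖) * ‖g (v * x)‖ := by
            refine integral_mono_of_nonneg (Eventually.of_forall fun x => norm_nonneg _) ?_
              (Eventually.of_forall fun x => ?_)
            · have h3 : Continuous fun x : ℝ => C * (v * ‖k0 v‖) * ‖g (v * x)‖ := by fun_prop
              exact (h3.integrable_of_hasCompactSupport hs.norm.mul_left).integrableOn
            · simp only [norm_mul, Complex.norm_real, Real.norm_of_nonneg hv.1.le]
              have h4 := hC x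
              have h5 : 0 ≤ v * ‖k0 v‖ * ‖g (v * x)‖ :=
                mul_nonneg (mul_nonneg hv.1.le (norm_nonneg _)) (norm_nonneg _)
              nlinarith
        _ = C * ‖k0 v‖ * ∫ x in Ioi (0 : ℝ), ‖g x‖ := by
            rw [integral_const_mul, h2]
            have := hv.1.ne'
            field_simp

lemma int2 (hW : Continuous W) (hC : ∀ x, ‖W x‖ ≤ C) (hg : Continuous g) (hgc : HasCompactSupport g)
    (hk : Continuous k0) :
    Integrable (fun q : ℝ × ℝ => g q.1 * (k0 q.2 * W (q.1 / q.2)))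
      ((volume.restrict (Ioi (0 : ℝ))).prod (volume.restrict (Ioc (0 : ℝ) 1))) := by
  have h1 : Integrable (fun q : ℝ × ℝ => ‖g q.1‖ * (C * ‖k0 q.2‖))
      ((volume.restrict (Ioi (0 : ℝ))).prod (volume.restrict (Ioc (0 : ℝ) 1))) :=
    Integrable.mul_prod (f := fun x : ℝ => ‖g x‖) (g := fun v : ℝ => C * ‖k0 v‖)
      (hg.norm.integrable_of_hasCompactSupport hgc.norm).integrableOn
      (by fun_prop : Continuous fun v : ℝ => C * ‖k0 v‖).integrableOn_Ioc
  refine h1.mono' (Measurable.aestronglyMeasurable ?_) (Eventually.of_forall fun q => ?_)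
  · have m1 := hg.measurable
    have m2 := hk.measurable
    have m3 := hW.measurable
    fun_prop
  · rw [norm_mul, norm_mul]
    have h2 := hC (q.1 / q.2)
    have h3 : ‖k0 q.2‖ * ‖W (q.1 / q.2)‖ ≤ C * ‖k0 q.2‖ := by
      nlinarith [norm_nonneg (k0 q.2)]
    exact mul_le_mul_of_nonneg_left h3 (norm_nonneg _)

/-- the change of variables `y = v x` -/
lemma swap_int (hW : Continuous W) (hC : ∀ x, ‖W x‖ ≤ C) (hg : Continuous g) (hgc : HasCompactSupport g)
    (hk : Continuous k0) :
    ∫ x in Ioi (0 : ℝ), W x * ∫ v in (0 : ℝ)..1, (v : ℂ) * k0 v * g (v * x) =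
      ∫ y in Ioi (0 : ℝ), g y * ∫ v in (0 : ℝ)..1, k0 v * W (y / v) := by
  simp_rw [intervalIntegral.integral_of_le (zero_le_one (α := ℝ)), ← integral_const_mul]
  refine (integral_integral_swap (int1 hW hC hg hgc hk)).trans ?_
  refine Eq.trans ?_ (integral_integral_swap (int2 hW hC hg hgc hk)).symm
  refine setIntegral_congr_fun measurableSet_Ioc fun v hv => ?_
  have h1 := integral_comp_mul_left_Ioi (fun y => g y * (k0 v * W (y / v))) 0 hv.1
  rw [mul_zero, Complex.real_smul] at h1
  have hv0 : (v : ℂ) ≠ 0 := Complex.ofReal_ne_zero.2 hv.1.ne'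
  have h2 : ∫ y in Ioi (0 : ℝ), g y * (k0 v * W (y / v)) =
      (v : ℂ) * ∫ x in Ioi (0 : ℝ), g (v * x) * (k0 v * W (v * x / v)) := by
    rw [h1, Complex.ofReal_inv, mul_inv_cancel_left₀ hv0]
  rw [h2, ← integral_const_mul]
  refine integral_congr_ae (Eventually.of_forall fun x => ?_)
  simp only
  rw [mul_div_cancel_left₀ _ hv.1.ne']
  ring

lemma cont_int (hW : Continuous W) (hC : ∀ x, ‖W x‖ ≤ C) (hk : Continuous k0) :
    Continuous fun y : ℝ => ∫ v in (0 : ℝ)..1, k0 v * W (y / v) := by
  refine intervalIntegral.continuous_of_dominated_interval (bound := fun v => C * ‖k0 v‖) (fun y => ?_)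
    (fun y => ?_) ?_ ?_
  · refine Measurable.aestronglyMeasurable ?_
    have m2 := hk.measurable
    have m3 := hW.measurable
    fun_prop
  · refine Eventually.of_forall fun v _ => ?_
    rw [norm_mul]
    have h2 := hC (y / v)
    nlinarith [norm_nonneg (k0 v)]
  · exact (by fun_prop : Continuous fun v : ℝ => C * ‖k0 v‖).intervalIntegrable _ _
  · refine Eventually.of_forall fun v _ => ?_
    fun_prop

end Pool.Agent.Q151.BB
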