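import Pool.Agent.Q78.BB.Stm
import Pool.Agent.Q276.BA.Fin
import Pool.Agent.Q151.BB.D3a

/-! Project BB (helper78), job D3: the formula for `T ^ N` on the frequency `b + 2 N` -/

set_option autoImplicit false

open MeasureTheory Set Filter Topology
open scoped BigOperators ENNReal SchwartzMap ContDiff

namespace Pool.Agent.Q151.BB

open Pool.Agent.Q78.BB Pool.Agent.Q276.BA
open Pool.Agent.Y282.RB (Tn)
open Pool.Agent.Q276.BA.D3 Pool.Agent.Q276.BA.D4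

/-- rotation to the positive half-axis, for nonnegative classes -/
lemma cls_pos {m : ℕ} {F : ℂ → ℂ} (h : Cls (m : ℤ) F) {z : ℂ} (hz : z ≠ 0) :
    F z = (z / (‖z‖ : ℂ)) ^ m * F (‖z‖ : ℂ) := by
  have hn : (‖z‖ : ℂ) ≠ 0 := Complex.ofReal_ne_zero.2 (norm_ne_zero_iff.2 hz)
  have ha : ‖z / (‖z‖ : ℂ)‖ = 1 := by
    rw [norm_div, Complex.norm_real, norm_norm]
    exact div_self (norm_ne_zero_iff.2 hz)
  have h3 := h (z / (‖z‖ : ℂ)) (‖z‖ : ℂ) ha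
  rw [div_mul_cancel₀ _ hn, zpow_natCast] at h3
  exact h3

lemma norm_mul_self (z : ℂ) : z * starRingEnd ℂ z = (‖z‖ : ℂ) ^ 2 := by
  rw [Complex.mul_conj, Complex.normSq_eq_norm_sq]
  push_cast
  ring

/-- smooth functions with compact support of the form `(conj z) ^ m Φ(|z|²)` -/
lemma exists_sch' (m : ℕ) (Φ : ℝ → ℂ) (hΦ : ContDiff ℝ ∞ Φ) (hR : ∃ R : ℝ, ∀ x, R ≤ x → Φ x = 0) :
    ∃ F : 𝓢(ℂ, ℂ), ∀ z, F z = (starRingEnd ℂ z) ^ m * Φ (Complex.normSq z) := by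
  obtain ⟨R, hR⟩ := hR
  have hs : ContDiff ℝ ∞ (fun z : ℂ => (starRingEnd ℂ z) ^ m * Φ (Complex.normSq z)) := by
    have h1 : ContDiff ℝ ∞ (Complex.normSq : ℂ → ℝ) := by
      have e : (Complex.normSq : ℂ → ℝ) = fun z => z.re * z.re + z.im * z.im := by
        funext z
        exact Complex.normSq_apply z
      rw [e]
      exact (Complex.reCLM.contDiff.mul Complex.reCLM.contDiff).add
        (Complex.imCLM.contDiff.mul Complex.imCLM.contDiff)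
    have h2 : ContDiff ℝ ∞ (fun z : ℂ => starRingEnd ℂ z) := Complex.conjCLE.contDiff
    exact (h2.pow m).mul (hΦ.comp h1)
  have hc : HasCompactSupport (fun z : ℂ => (starRingEnd ℂ z) ^ m * Φ (Complex.normSq z)) := by
    refine HasCompactSupport.intro (isCompact_closedBall (0 : ℂ) (|R| + 1)) fun w hw => ?_
    rw [Metric.mem_closedBall, dist_zero_right, not_le] at hw
    have h1 : R ≤ Complex.normSq w := by
      rw [Complex.normSq_eq_norm_sq]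
      nlinarith [le_abs_self R, abs_nonneg R]
    rw [hR _ h1, mul_zero]
  exact ⟨hc.toSchwartzMap hs, fun z => rfl⟩

/-- the kernel `v ^ (b - 1) p(v)` -/
noncomputable def kk (b N : ℕ) (v : ℝ) : ℂ := ((v ^ (b - 1) * pp b N v : ℝ) : ℂ)

lemma pp_cont (b N : ℕ) : Continuous (pp b N) := by
  unfold pp
  fun_prop

lemma kk_cont (b N : ℕ) : Continuous (kk b N) := by
  have := pp_cont b N
  unfold kk
  fun_prop

lemma conj_pow_mul {m : ℕ} {F : ℂ → ℂ} (h : Cls (m : ℤ) F) (z : ℂ) :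
    F z * (starRingEnd ℂ z) ^ m =
      ((√(Complex.normSq z) : ℝ) : ℂ) ^ m * F ((√(Complex.normSq z) : ℝ) : ℂ) := by
  have hs : √(Complex.normSq z) = ‖z‖ := rfl
  rcases eq_or_ne z 0 with rfl | hz
  · rw [hs]
    simp only [map_zero, norm_zero, Complex.ofReal_zero]
    ring
  · have hn : (‖z‖ : ℂ) ≠ 0 := Complex.ofReal_ne_zero.2 (norm_ne_zero_iff.2 hz)
    rw [hs, cls_pos h hz, div_pow]
    have h1 : z ^ m * (starRingEnd ℂ z) ^ m = (‖z‖ : ℂ) ^ m * (‖z‖ : ℂ) ^ m := by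
      rw [← mul_pow, norm_mul_self, ← mul_pow, sq]
    field_simp
    linear_combination F (‖z‖ : ℂ) * h1

/-- the function `AA (qq b N) h` for `h z = (conj z) ^ b φ(|z|²)` -/
lemma AA_conj (b N : ℕ) (hb : 1 ≤ b) (h : ℂ → ℂ) (φ : ℝ → ℂ)
    (hh : ∀ z, h z = (starRingEnd ℂ z) ^ b * φ (Complex.normSq z)) (z : ℂ) :
    AA (qq b N) h z = (starRingEnd ℂ z) ^ b *
      (φ (Complex.normSq z) + ∫ v in (0 : ℝ)..1, (v : ℂ) * kk b N v * φ (v * Complex.normSq z)) := by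
  unfold AA
  rw [mul_add, ← hh, ← intervalIntegral.integral_const_mul]
  congr 1
  refine intervalIntegral.integral_congr fun v hv => ?_
  rw [uIcc_of_le zero_le_one] at hv
  have h2 : Complex.normSq (((√v : ℝ) : ℂ) * z) = v * Complex.normSq z := by
    rw [Complex.normSq_mul, Complex.normSq_ofReal, Real.mul_self_sqrt hv.1]
  rw [hh, h2, map_mul, Complex.conj_ofReal, mul_pow]
  have h3 : (((√v : ℝ) : ℂ) ^ b) * (((√v : ℝ) : ℂ) ^ b) = (v : ℂ) * (v : ℂ) ^ (b - 1) := by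
    rw [← mul_pow, ← Complex.ofReal_mul, Real.mul_self_sqrt hv.1, ← pow_succ', Nat.sub_add_cancel hb]
  unfold qq kk
  push_cast
  linear_combination (starRingEnd ℂ z ^ b * φ (v * Complex.normSq z) * (pp b N v : ℂ)) * h3

lemma bdW (b : ℕ) (f : 𝓢(ℂ, ℂ)) : ∃ C : ℝ, ∀ x : ℝ, ‖((√x : ℝ) : ℂ) ^ b * f ((√x : ℝ) : ℂ)‖ ≤ C := by
  obtain ⟨C, -, hC⟩ := f.decay b 0
  refine ⟨C, fun x => ?_⟩
  have h := hC ((√x : ℝ) : ℂ)
  rw [norm_iteratedFDeriv_zero] at h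
  rw [norm_mul, norm_pow]
  exact h

lemma rot_id (N b : ℕ) (f : ℂ → ℂ) (hf : Cls ((b : ℤ) + 2 * N) f) {z : ℂ} (hz : z ≠ 0) :
    f z * ((starRingEnd ℂ z / z) ^ N * (starRingEnd ℂ z) ^ b) =
      ((√(Complex.normSq z) : ℝ) : ℂ) ^ b * f ((√(Complex.normSq z) : ℝ) : ℂ) := by
  have hs : √(Complex.normSq z) = ‖z‖ := rfl
  have hn : (‖z‖ : ℂ) ≠ 0 := Complex.ofReal_ne_zero.2 (norm_ne_zero_iff.2 hz)
  have hf' : Cls ((b + 2 * N : ℕ) : ℤ) f := by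
    have e : ((b + 2 * N : ℕ) : ℤ) = (b : ℤ) + 2 * N := by push_cast; ring
    rw [e]
    exact hf
  rw [hs, cls_pos hf' hz, div_pow, div_pow]
  have h1 : z ^ (b + N) * (starRingEnd ℂ z) ^ (b + N) = (‖z‖ : ℂ) ^ (b + N) * (‖z‖ : ℂ) ^ (b + N) := by
    rw [← mul_pow, norm_mul_self, ← mul_pow, sq]
  have hzN : z ^ N ≠ 0 := pow_ne_zero _ hz
  have hnN : (‖z‖ : ℂ) ^ (b + 2 * N) ≠ 0 := pow_ne_zero _ hn
  rw [div_mul_eq_mul_div, div_mul_eq_mul_div, div_eq_iff hnN]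
  have h3 : (starRingEnd ℂ z) ^ N / z ^ N * z ^ N = (starRingEnd ℂ z) ^ N := div_mul_cancel₀ _ hzN
  have e2 : b + 2 * N = (b + N) + N := by ring
  rw [e2, pow_add z (b + N) N, pow_add (‖z‖ : ℂ) (b + N) N]
  rw [pow_add z b N, pow_add (‖z‖ : ℂ) b N, pow_add (starRingEnd ℂ z) b N] at h1
  rw [pow_add z b N, pow_add (‖z‖ : ℂ) b N]
  linear_combination (f (‖z‖ : ℂ)) * h1 + (z ^ b * z ^ N * f (‖z‖ : ℂ) * (starRingEnd ℂ z) ^ b) * h3

lemma pairing' (N b : ℕ) (hb : 1 ≤ b) (f : 𝓢(ℂ, ℂ)) (hf : Cls ((b : ℤ) + 2 * N) f) (φ : ℝ → ℂ)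
    (hφ : ContDiff ℝ ∞ φ) (hR : ∃ R : ℝ, ∀ x, R ≤ x → φ x = 0) :
    ∫ x in Ioi (0 : ℝ), (((√x : ℝ) : ℂ) ^ b * Tn N f ((√x : ℝ) : ℂ)) * φ x =
      ∫ x in Ioi (0 : ℝ), (((√x : ℝ) : ℂ) ^ b * f ((√x : ℝ) : ℂ)) *
        (φ x + ∫ v in (0 : ℝ)..1, (v : ℂ) * kk b N v * φ (v * x)) := by
  obtain ⟨h, hh⟩ := exists_sch' b φ hφ hR
  have hcl : Cls (-(b : ℤ)) h := by
    intro a z ha
    rw [hh, hh, map_mul, mul_pow, Complex.normSq_mul, Complex.normSq_eq_norm_sq a, ha, one_pow, one_mul,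
      zpow_neg, zpow_natCast, Pool.Agent.Q276.BA.D5.conj_eq_inv ha, inv_pow, mul_assoc]
  have hTc : Cls (b : ℤ) (Tn N f) := by
    have h1 := Pool.Agent.Q277.BA.c2 N ((b : ℤ) + 2 * N) f hf
    rwa [add_sub_cancel_right] at h1
  have hp := Pool.Agent.Q277.BA.c1 N f h
  have e1 : ∀ z : ℂ, Tn N f z * h z = (fun x : ℝ => (((√x : ℝ) : ℂ) ^ b * Tn N f ((√x : ℝ) : ℂ)) * φ x)
      (Complex.normSq z) := by
    intro z
    rw [hh, ← mul_assoc, conj_pow_mul hTc z]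
  have e2 : ∀ᵐ z : ℂ, f z * Tn N h z = (fun x : ℝ => (((√x : ℝ) : ℂ) ^ b * f ((√x : ℝ) : ℂ)) *
        (φ x + ∫ v in (0 : ℝ)..1, (v : ℂ) * kk b N v * φ (v * x))) (Complex.normSq z) := by
    have h0 : ∀ᵐ z : ℂ, z ≠ 0 := by
      rw [ae_iff]
      simp
    filter_upwards [h0] with z hz
    rw [Pool.Agent.Q276.BA.Fin.fD N b h hcl z hz, AA_conj b N hb h φ hh z]
    rw [← rot_id N b f hf hz]
    ring
  rw [integral_congr_ae (Eventually.of_forall e1), integral_congr_ae e2] at hp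
  rw [int_normSq (fun x : ℝ => (((√x : ℝ) : ℂ) ^ b * Tn N f ((√x : ℝ) : ℂ)) * φ x),
    int_normSq (fun x : ℝ => (((√x : ℝ) : ℂ) ^ b * f ((√x : ℝ) : ℂ)) *
        (φ x + ∫ v in (0 : ℝ)..1, (v : ℂ) * kk b N v * φ (v * x)))] at hp
  have hpi : (Real.pi : ℂ) ≠ 0 := by exact_mod_cast Real.pi_ne_zero
  exact mul_left_cancel₀ hpi hp

/-- the formula on the positive half-axis -/
lemma rad (N b : ℕ) (hb : 1 ≤ b) (f : 𝓢(ℂ, ℂ)) (hf : Cls ((b : ℤ) + 2 * N) f) (y : ℝ) (hy : 0 < y) :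
    ((√y : ℝ) : ℂ) ^ b * Tn N f ((√y : ℝ) : ℂ) = ((√y : ℝ) : ℂ) ^ b * f ((√y : ℝ) : ℂ) +
      ∫ v in (0 : ℝ)..1, kk b N v * (((√(y / v) : ℝ) : ℂ) ^ b * f ((√(y / v) : ℝ) : ℂ)) := by
  obtain ⟨C, hC⟩ := bdW b f
  have hfc : Continuous f := f.continuous
  have hT := cont_Tn N f
  have hW : Continuous fun x : ℝ => ((√x : ℝ) : ℂ) ^ b * f ((√x : ℝ) : ℂ) := by fun_prop
  have hG : Continuous fun x : ℝ => ((√x : ℝ) : ℂ) ^ b * Tn N f ((√x : ℝ) : ℂ) := by fun_prop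
  have hI := cont_int (k0 := kk b N) hW hC (kk_cont b N)
  have key := dbr (fun x : ℝ => ((√x : ℝ) : ℂ) ^ b * Tn N f ((√x : ℝ) : ℂ) - (((√x : ℝ) : ℂ) ^ b * f ((√x : ℝ) : ℂ) +
      ∫ v in (0 : ℝ)..1, kk b N v * (((√(x / v) : ℝ) : ℂ) ^ b * f ((√(x / v) : ℝ) : ℂ)))) (hG.sub (hW.add hI)) (by
    intro g hg1 hg2 hg3
    obtain ⟨R, hR⟩ : ∃ R : ℝ, ∀ x, R ≤ x → g x = 0 := by
      obtain ⟨R, hR⟩ := hg2.isCompact.isBounded.bddAbove
      refine ⟨R + 1, fun x hx => ?_⟩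
      by_contra h
      have h1 : x ∈ tsupport g := subset_tsupport g (Function.mem_support.2 h)
      have h2 := hR h1
      linarith
    have hgs : ContDiff ℝ ∞ (fun x : ℝ => (g x : ℂ)) := Complex.ofRealCLM.contDiff.comp hg1
    have h1 := pairing' N b hb f hf (fun x => (g x : ℂ)) hgs
      ⟨R, fun x hx => by rw [hR x hx, Complex.ofReal_zero]⟩
    have hgc : HasCompactSupport (fun x : ℝ => (g x : ℂ)) :=
      hg2.comp_left (g := fun y : ℝ => (y : ℂ)) (by simp)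
    have hgcont : Continuous fun x : ℝ => (g x : ℂ) := hgs.continuous
    have i1 : Integrable (fun x : ℝ => (g x : ℂ) * (((√x : ℝ) : ℂ) ^ b * Tn N f ((√x : ℝ) : ℂ))) :=
      (hgcont.mul hG).integrable_of_hasCompactSupport hgc.mul_right
    have i2 : Integrable (fun x : ℝ => (g x : ℂ) * (((√x : ℝ) : ℂ) ^ b * f ((√x : ℝ) : ℂ))) :=
      (hgcont.mul hW).integrable_of_hasCompactSupport hgc.mul_right
    have i3 : Integrable (fun x : ℝ => (g x : ℂ) *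
        ∫ v in (0 : ℝ)..1, kk b N v * (((√(x / v) : ℝ) : ℂ) ^ b * f ((√(x / v) : ℝ) : ℂ))) :=
      (hgcont.mul hI).integrable_of_hasCompactSupport hgc.mul_right
    have sw := swap_int (k0 := kk b N) hW hC hgcont hgc (kk_cont b N)
    have i4 : IntegrableOn (fun x : ℝ => (((√x : ℝ) : ℂ) ^ b * f ((√x : ℝ) : ℂ)) *
        ∫ v in (0 : ℝ)..1, (v : ℂ) * kk b N v * (g (v * x) : ℂ)) (Ioi 0) := by
      have h2 := (int1 (k0 := kk b N) hW hC hgcont hgc (kk_cont b N)).integral_prod_left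
      simp_rw [integral_const_mul, ← intervalIntegral.integral_of_le (zero_le_one (α := ℝ))] at h2
      exact h2
    have e0 : ∫ x in Ioi (0 : ℝ), (((√x : ℝ) : ℂ) ^ b * f ((√x : ℝ) : ℂ)) *
        ((g x : ℂ) + ∫ v in (0 : ℝ)..1, (v : ℂ) * kk b N v * (g (v * x) : ℂ)) =
        (∫ x in Ioi (0 : ℝ), (g x : ℂ) * (((√x : ℝ) : ℂ) ^ b * f ((√x : ℝ) : ℂ))) +
        ∫ x in Ioi (0 : ℝ), (((√x : ℝ) : ℂ) ^ b * f ((√x : ℝ) : ℂ)) *
          ∫ v in (0 : ℝ)..1, (v : ℂ) * kk b N v * (g (v * x) : ℂ) := by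
      rw [← integral_add i2.integrableOn i4]
      refine integral_congr_ae (Eventually.of_forall fun x => ?_)
      simp only
      ring
    have e1 : ∫ x in Ioi (0 : ℝ), (g x : ℂ) * (((√x : ℝ) : ℂ) ^ b * Tn N f ((√x : ℝ) : ℂ) -
        (((√x : ℝ) : ℂ) ^ b * f ((√x : ℝ) : ℂ) +
        ∫ v in (0 : ℝ)..1, kk b N v * (((√(x / v) : ℝ) : ℂ) ^ b * f ((√(x / v) : ℝ) : ℂ)))) =
        (∫ x in Ioi (0 : ℝ), (g x : ℂ) * (((√x : ℝ) : ℂ) ^ b * Tn N f ((√x : ℝ) : ℂ))) -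
        ((∫ x in Ioi (0 : ℝ), (g x : ℂ) * (((√x : ℝ) : ℂ) ^ b * f ((√x : ℝ) : ℂ))) +
        ∫ x in Ioi (0 : ℝ), (g x : ℂ) *
          ∫ v in (0 : ℝ)..1, kk b N v * (((√(x / v) : ℝ) : ℂ) ^ b * f ((√(x / v) : ℝ) : ℂ))) := by
      have i5 : Integrable (fun x : ℝ => (g x : ℂ) * ((((√x : ℝ) : ℂ) ^ b * f ((√x : ℝ) : ℂ)) +
          ∫ v in (0 : ℝ)..1, kk b N v * (((√(x / v) : ℝ) : ℂ) ^ b * f ((√(x / v) : ℝ) : ℂ)))) :=
        (hgcont.mul (hW.add hI)).integrable_of_hasCompactSupport hgc.mul_right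
      have e5 : ∫ x in Ioi (0 : ℝ), (g x : ℂ) * ((((√x : ℝ) : ℂ) ^ b * f ((√x : ℝ) : ℂ)) +
          ∫ v in (0 : ℝ)..1, kk b N v * (((√(x / v) : ℝ) : ℂ) ^ b * f ((√(x / v) : ℝ) : ℂ))) =
          (∫ x in Ioi (0 : ℝ), (g x : ℂ) * (((√x : ℝ) : ℂ) ^ b * f ((√x : ℝ) : ℂ))) +
          ∫ x in Ioi (0 : ℝ), (g x : ℂ) *
            ∫ v in (0 : ℝ)..1, kk b N v * (((√(x / v) : ℝ) : ℂ) ^ b * f ((√(x / v) : ℝ) : ℂ)) := by
        rw [← integral_add i2.integrableOn i3.integrableOn]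
        refine integral_congr_ae (Eventually.of_forall fun x => ?_)
        simp only
        ring
      rw [← e5, ← integral_sub i1.integrableOn i5.integrableOn]
      refine integral_congr_ae (Eventually.of_forall fun x => ?_)
      simp only
      ring
    rw [e1, sub_eq_zero, ← sw, ← e0, ← h1]
    refine integral_congr_ae (Eventually.of_forall fun x => ?_)
    simp only
    ring)
  exact sub_eq_zero.1 (key y hy)

lemma radAO (N b : ℕ) (hb : 1 ≤ b) (f : 𝓢(ℂ, ℂ)) (hf : Cls ((b : ℤ) + 2 * N) f) (y : ℝ) (hy : 0 < y) :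
    Tn N f ((√y : ℝ) : ℂ) = AO (qq b N) f ((√y : ℝ) : ℂ) := by
  have h := rad N b hb f hf y hy
  have hy' : ((√y : ℝ) : ℂ) ^ b ≠ 0 :=
    pow_ne_zero _ (Complex.ofReal_ne_zero.2 (Real.sqrt_pos.2 hy).ne')
  refine mul_left_cancel₀ hy' ?_
  rw [h]
  unfold AO
  rw [mul_add, ← intervalIntegral.integral_const_mul]
  congr 1
  rw [intervalIntegral.integral_of_le zero_le_one, intervalIntegral.integral_of_le zero_le_one]
  refine setIntegral_congr_fun measurableSet_Ioc fun v hv => ?_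
  have hs0 : 0 < √v := Real.sqrt_pos.2 hv.1
  have e1 : √(y / v) = (√v)⁻¹ * √y := by
    rw [Real.sqrt_div hy.le, div_eq_inv_mul]
  have e2 : v = √v ^ 2 := (Real.sq_sqrt hv.1.le).symm
  have e3 : v ^ (b - 1) * ((√v)⁻¹) ^ b = (√v) ^ b / v := by
    obtain ⟨c, rfl⟩ := Nat.exists_eq_add_of_le' hb
    rw [Nat.add_sub_cancel]
    rw [inv_pow, ← div_eq_mul_inv, div_eq_div_iff (pow_ne_zero _ hs0.ne') hv.1.ne', ← pow_succ]
    generalize √v = s at e2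
    rw [e2, ← pow_mul, ← pow_add]
    congr 1
    ring
  rw [e1, Complex.ofReal_mul, mul_pow]
  have e4 : ((v : ℂ)) ^ (b - 1) * ((((√v)⁻¹ : ℝ) : ℂ)) ^ b = ((√v : ℝ) : ℂ) ^ b / (v : ℂ) := by
    exact_mod_cast congrArg (fun t : ℝ => (t : ℂ)) e3
  unfold kk qq
  push_cast at e4 ⊢
  linear_combination ((√y : ℝ) : ℂ) ^ b * (pp b N v : ℂ) * f ((((√v : ℝ) : ℂ))⁻¹ * ((√y : ℝ) : ℂ)) * e4

/-- JOB BB-D3 -/
theorem d3 : S_D3 := by
  intro N b hb f hf z hz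
  have hTc : Cls (b : ℤ) (Tn N f) := by
    have h1 := Pool.Agent.Q277.BA.c2 N ((b : ℤ) + 2 * N) f hf
    rwa [add_sub_cancel_right] at h1
  have hf' : Cls ((b + 2 * N : ℕ) : ℤ) f := by
    have e : ((b + 2 * N : ℕ) : ℤ) = (b : ℤ) + 2 * N := by push_cast; ring
    rw [e]
    exact hf
  have hn : 0 < ‖z‖ := norm_pos_iff.2 hz
  have hnC : (‖z‖ : ℂ) ≠ 0 := Complex.ofReal_ne_zero.2 hn.ne'
  have ha : ‖z / (‖z‖ : ℂ)‖ = 1 := by
    rw [norm_div, Complex.norm_real, norm_norm]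
    exact div_self (norm_ne_zero_iff.2 hz)
  have h1 := radAO N b hb f hf (‖z‖ ^ 2) (by positivity)
  rw [Real.sqrt_sq hn.le] at h1
  have h2 : AO (qq b N) f z = (z / (‖z‖ : ℂ)) ^ (b + 2 * N) * AO (qq b N) f (‖z‖ : ℂ) := by
    unfold AO
    rw [mul_add, ← cls_pos hf' hz, ← intervalIntegral.integral_const_mul]
    congr 1
    refine intervalIntegral.integral_congr fun v _ => ?_
    have h3 := hf' (z / (‖z‖ : ℂ)) ((((√v)⁻¹ : ℝ) : ℂ) * (‖z‖ : ℂ)) ha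
    rw [zpow_natCast] at h3
    have h4 : z / (‖z‖ : ℂ) * ((((√v)⁻¹ : ℝ) : ℂ) * (‖z‖ : ℂ)) = (((√v)⁻¹ : ℝ) : ℂ) * z := by
      field_simp
    rw [h4] at h3
    rw [h3]
    ring
  rw [cls_pos hTc hz, h1, h2]
  have h5 : starRingEnd ℂ z / z * (z / (‖z‖ : ℂ)) ^ 2 = 1 := by
    have := norm_mul_self z
    field_simp
    linear_combination this
  have h6 : (starRingEnd ℂ z / z) ^ N * (z / (‖z‖ : ℂ)) ^ (2 * N) = 1 := by
    rw [pow_mul, ← mul_pow, h5, one_pow]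
  rw [pow_add]
  linear_combination (-(z / (‖z‖ : ℂ)) ^ b * AO (qq b N) f (‖z‖ : ℂ)) * h6

end Pool.Agent.Q151.BB
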